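import Pool.Agent.Helper66_DML.Final

set_option autoImplicit false

/-!
# A counterexample to the Jones-Silverman question on value sets

Over `K = ℚ` and `X = ℙ⁹` we exhibit an endomorphism `f` of degree `2`, a rational point `α`, a
geometrically irreducible closed subvariety `Z` and a morphism `g : Z → Z` such that
`{n : f^n(α) ∈ g(Z(ℚ))}` is not a finite union of arithmetic progressions.

`Z` is the hypersurface `x v² = w (u₁² + u₂² + u₃² + u₄²)` of `ℙ¹ × ℙ⁴`, Segre embedded in `ℙ⁹`; it
contains a line `L`, and `g` is the projection `Z → ℙ¹`, `([x:w],[v:u]) ↦ [x:w]`, followed by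
`ℙ¹ ≅ L ⊂ Z`.  By Lagrange's four squares theorem a rational point `[x:w]`, `w ≠ 0`, of `L` lies in
`g(Z(ℚ))` iff `x / w ≥ 0`.  On `L` the map `f` is the Chebyshev polynomial `T(x) = x² - 2`, and
`α` corresponds to `6/5`; the sign sequence of `T^n(6/5)` is not eventually periodic.
-/

namespace Pool.Agent.Results.MP_7e9602_ag.Disproof

open Pool.Agent.Helper66_DML

/-- There are a polarized endomorphism `f` (of degree `d ≥ 2`) of `X = ℙ⁹` over `ℚ`, a rational point
`α` of `X`, a (geometrically irreducible, closed) subvariety `Z` of `X` over `ℚ` and a morphism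
`g : Z → Z` over `ℚ`, such that the return set `{n : f^n(α) ∈ g(Z(ℚ))}` is not a finite union of
arithmetic progressions. -/
theorem result :
    ∃ (f g : PN (AlgebraicClosure ℚ) 9 → PN (AlgebraicClosure ℚ) 9)
      (Z : Set (PN (AlgebraicClosure ℚ) 9)) (α : PN (AlgebraicClosure ℚ) 9),
      IsVariety ℚ (Set.univ : Set (PN (AlgebraicClosure ℚ) 9)) ∧
      IsPolarizedEndo ℚ (Set.univ : Set (PN (AlgebraicClosure ℚ) 9)) f ∧
      IsRational ℚ α ∧
      IsVariety ℚ Z ∧
      IsSelfMorphism ℚ Z g ∧
      ¬ IsFiniteUnionAP (returnSet ℚ Z f g α) :=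
  ⟨fmap, gmap, Zset, pt (num 0) (den 0) (Or.inr (den_ne_zero 0)), isVariety_univ,
    isPolarizedEndo_fmap, isRational_pt _ _ _, isVariety_Zset, isSelfMorphism_gmap,
    not_isFiniteUnionAP⟩

end Pool.Agent.Results.MP_7e9602_ag.Disproof
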